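import Pool.Agent.Y490.Fill.Strat

/-!
# Super-Euclidean filling functions of stratified nilpotent Lie groups, with a power gap

Q1 (yes). The proof builds on the starting development `Pool/Agent/TH630/Fill`. New here: stratified
groups, and the quantitative statement. If `FV^{k+1} ≼ r ^ (a k)` with `a k ≥ 1` for every `k`, then
the net points of a partition of unity at scale `ρ` can be joined by chains whose volumes are
`O(ρ ^ (a 1 ⋯ a (k-1)))`, while the volume of the group forces exponent at least `n + 1` in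
dimension `n`.
-/

namespace Pool.Agent.Results.MP_b8ac35_gt.StratifiedFilling

open Pool.Agent.TH630 Pool.Agent.Y490.Fill

/-- Let `G` be a stratified nilpotent Lie group of step `s ≥ 2` and dimension `n` with any
left-invariant Riemannian metric. Then some filling function `FV^{k+1}`, `1 ≤ k ≤ n - 1`, is
super-Euclidean. More precisely, for all exponents `a k ≥ 1` with `a 1 ⋯ a (n-1) < n + 1` there is
a `k` for which `FV^{k+1} ≼ r ^ (a k)` fails (for `a k = (k+1)/k` the product is `n`). -/
theorem result {n : ℕ} (G : NilLaw n) (B : Matrix (Fin n) (Fin n) ℝ) (hB : B.PosDef)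
    (s : ℕ) (hs : 2 ≤ s) (V : ℕ → Submodule ℝ (Fin n → ℝ)) (hV : IsStratification G s V) :
    (∃ k, 1 ≤ k ∧ k + 1 ≤ n ∧ SuperEuclidean G B k) ∧
    ∀ a : ℕ → ℝ, (∀ j, 1 ≤ a j) → ∏ j ∈ Finset.Icc 1 (n - 1), a j < n + 1 →
      ∃ k, 1 ≤ k ∧ k + 1 ≤ n ∧ ¬ FVle G B k (a k) :=
  main hB hs hV

end Pool.Agent.Results.MP_b8ac35_gt.StratifiedFilling
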